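import Mathlib

/-!
# Symmetrising a matrix by a permutation of its rows: degrees, and the abstract construction
-/

namespace Pool.Agent.K6.H49.MS

/-- `σ` makes `A` symmetric. -/
def Sym {I : Type} (A : I → I → Bool) (σ : Equiv.Perm I) : Prop :=
  ∀ a b, A (σ a) b = A (σ b) a

theorem Sym.card_eq {I : Type} [Fintype I] {A : I → I → Bool} {σ : Equiv.Perm I}
    (h : Sym A σ) (a : I) :
    (Finset.univ.filter fun b => A (σ a) b = true).card =
      (Finset.univ.filter fun b => A b a = true).card := by
  refine Finset.card_bij (fun b _ => σ b) ?_ ?_ ?_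
  · intro b hb
    simp only [Finset.mem_filter, Finset.mem_univ, true_and] at hb ⊢
    rw [← h a b, hb]
  · intro b _ b' _ hbb
    exact σ.injective hbb
  · intro b hb
    simp only [Finset.mem_filter, Finset.mem_univ, true_and] at hb
    refine ⟨σ.symm b, ?_, by simp⟩
    simp only [Finset.mem_filter, Finset.mem_univ, true_and]
    rw [h a (σ.symm b)]
    simpa using hb

/-- the conditions on the additional rows and columns -/
structure Pad {J : Type} [Fintype J] (M T : ℕ) (cls : J → ℕ)
    (A : J ⊕ Fin M → J ⊕ Fin M → Bool) : Prop where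
  card : Fintype.card J ≤ T
  pos : ∀ a, 1 ≤ cls a
  le : ∀ a, (T + 1) * cls a ≤ M
  lr : ∀ a t, A (Sum.inl a) (Sum.inr t) = decide (t.val < (T + 1) * cls a)
  rl : ∀ a t, A (Sum.inr t) (Sum.inl a) = decide (t.val < (T + 1) * cls a)
  rr : ∀ s t, A (Sum.inr s) (Sum.inr t) = false

theorem card_filter_sum {J K : Type} [Fintype J] [Fintype K] (p : J ⊕ K → Prop)
    [DecidablePred p] : (Finset.univ.filter p).card =
      (Finset.univ.filter fun a : J => p (Sum.inl a)).card +
      (Finset.univ.filter fun a : K => p (Sum.inr a)).card := by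
  rw [Finset.card_filter, Finset.card_filter, Finset.card_filter, Fintype.sum_sum_type]

theorem card_lt_fin (M e : ℕ) (h : e ≤ M) :
    (Finset.univ.filter fun t : Fin M => decide (t.val < e) = true).card = e := by
  simp only [decide_eq_true_eq]
  rw [Fin.card_filter_val_lt]
  omega

theorem Pad.cls_eq {J : Type} [Fintype J] {M T : ℕ} {cls : J → ℕ}
    {A : J ⊕ Fin M → J ⊕ Fin M → Bool} (hA : Pad M T cls A) {σ : Equiv.Perm (J ⊕ Fin M)}
    (h : Sym A σ) (a : J) : ∃ a' : J, σ (Sum.inl a) = Sum.inl a' ∧ cls a' = cls a := by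
  classical
  have h1 := h.card_eq (Sum.inl a)
  rw [card_filter_sum (fun b => A b (Sum.inl a) = true)] at h1
  simp only [hA.rl] at h1
  rw [card_lt_fin _ _ (hA.le a)] at h1
  have h2 : (Finset.univ.filter fun b : J => A (Sum.inl b) (Sum.inl a) = true).card ≤ T :=
    (Finset.card_le_univ _).trans hA.card
  cases hs : σ (Sum.inl a) with
  | inl a' =>
    refine ⟨a', rfl, ?_⟩
    rw [hs, card_filter_sum] at h1
    simp only [hA.lr] at h1
    rw [card_lt_fin _ _ (hA.le a')] at h1
    have h3 : (Finset.univ.filter fun b : J => A (Sum.inl a') (Sum.inl b) = true).card ≤ T :=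
      (Finset.card_le_univ _).trans hA.card
    rcases Nat.lt_trichotomy (cls a') (cls a) with h4 | h4 | h4
    · exfalso
      have : (T + 1) * (cls a' + 1) ≤ (T + 1) * cls a := Nat.mul_le_mul_left _ h4
      rw [Nat.mul_add] at this
      omega
    · exact h4
    · exfalso
      have : (T + 1) * (cls a + 1) ≤ (T + 1) * cls a' := Nat.mul_le_mul_left _ h4
      rw [Nat.mul_add] at this
      omega
  | inr t =>
    exfalso
    rw [hs, card_filter_sum] at h1
    simp only [hA.rr, Bool.false_eq_true, Finset.filter_false, Finset.card_empty] at h1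
    have h3 : (Finset.univ.filter fun b : J => A (Sum.inr t) (Sum.inl b) = true).card ≤ T :=
      (Finset.card_le_univ _).trans hA.card
    have h4 : (T + 1) * 1 ≤ (T + 1) * cls a := Nat.mul_le_mul_left _ (hA.pos a)
    omega

end Pool.Agent.K6.H49.MS
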