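import Pool.Agent.NPC.Classes

/-!
# The problems MS and GI

MS: given an `n × n` matrix `A` with entries in `{0, 1}`, is there a permutation matrix `P` such
that `P A` is symmetric?  GI: are two finite simple graphs isomorphic?
-/

namespace Pool.Agent.K6.H49.MS

open Pool.Agent.NPC

/-- The rows of a 0-1 matrix (with `true` for `1` and `false` for `0`), as a list of lists. -/
def rows {n : ℕ} (A : Matrix (Fin n) (Fin n) Bool) : List (List Bool) :=
  List.ofFn fun i => List.ofFn (A i)

/-- The 0-1 matrix with integer entries `0`, `1`. -/
def toInt {n : ℕ} (A : Matrix (Fin n) (Fin n) Bool) : Matrix (Fin n) (Fin n) ℤ :=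
  A.map fun b => if b then 1 else 0

/-- MS: the instance is (the list of the rows of) a square 0-1 matrix `A` such that `P A` is
symmetric for some permutation matrix `P`. -/
def MS (L : List (List Bool)) : Prop :=
  ∃ (n : ℕ) (A : Matrix (Fin n) (Fin n) Bool), L = rows A ∧
    ∃ σ : Equiv.Perm (Fin n), (σ.permMatrix ℤ * toInt A).transpose = σ.permMatrix ℤ * toInt A

open Classical in
/-- The adjacency matrix of a graph on `{0, ..., n - 1}`. -/
noncomputable def adj {n : ℕ} (G : SimpleGraph (Fin n)) : Matrix (Fin n) (Fin n) Bool :=
  fun i j => decide (G.Adj i j)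

/-- GI: the instance is the pair of (the lists of the rows of) the adjacency matrices of two
isomorphic finite simple graphs. -/
def GI (L : List (List Bool) × List (List Bool)) : Prop :=
  ∃ (n m : ℕ) (G : SimpleGraph (Fin n)) (H : SimpleGraph (Fin m)),
    L = (rows (adj G), rows (adj H)) ∧ Nonempty (G ≃g H)

/-- `L` is `NP`-complete: it is in `NP`, and every language in `NP` has a polynomial-time many-one
reduction to `L`. -/
def NPComplete (L : Set (List Bool)) : Prop := InNP L ∧ NPHard L

/-- Polynomial-time Turing reducibility of the language `L` to the language `O`.  The algorithm is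
given by its function `next`, which computes in polynomial time, from the input `x` and the list of
the answers received so far, either the next query (`Sum.inl q`) or the final output (`Sum.inr b`).
On input `x` it makes at most `p(|x|)` queries, of length at most `p(|x|)`, and the final output
tells whether `x` is in `L`. -/
def TuringReduces (L O : Set (List Bool)) : Prop :=
  ∃ (next : List Bool × List Bool → List Bool ⊕ Bool) (N : List Bool → List Bool)
    (p : Polynomial ℕ),
    PolyTime N ∧ (∀ s, N (bits s) = bits (next s)) ∧
    ∀ x, ∃ ans : List Bool, ans.length ≤ p.eval x.length ∧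
      (∀ i (hi : i < ans.length), ∃ q : List Bool, next (x, ans.take i) = Sum.inl q ∧
        q.length ≤ p.eval x.length ∧ (ans[i] = true ↔ q ∈ O)) ∧
      ∃ b, next (x, ans) = Sum.inr b ∧ (b = true ↔ x ∈ L)

end Pool.Agent.K6.H49.MS
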