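import Pool.Agent.K6.H49.MS.Mem

/-!
# MS is NP-complete; MS is equivalent to GI iff GI is NP-complete
-/

namespace Pool.Agent.K6.H49.MS

open Pool.Agent.NPC

theorem npComplete_MS : NPComplete (lang MS) := ⟨inNPP_MS, hardI_MS.toNPHardP⟩

theorem inNP_GI : InNP (lang GI) := inNPP_GI

/-- a many-one reduction followed by a Turing reduction -/
theorem TuringReduces.comp {L M O : Set (List Bool)} (h : Reduces L M) (h' : TuringReduces M O) :
    TuringReduces L O := by
  obtain ⟨f, hf, hfL⟩ := h
  obtain ⟨next, N, p, hN, hnext, hrun⟩ := h'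
  have hf' := poly_of_polyTime hf
  obtain ⟨r, hr⟩ := hf'.sz_le
  have hlen : ∀ x : List Bool, (f x).length ≤ r.eval (4 * x.length + 1) := by
    intro x
    have h1 := hr x
    have h2 := sz_listBool_ge (f x)
    have h3 := sz_listBool_le x
    have h4 := eval_mono r h3
    omega
  have hg : Poly (fun s : List Bool × List Bool => (f s.1, s.2)) :=
    NPC.Poly.pair (hf'.comp (NPC.Poly.fst NPC.Poly.id)) (NPC.Poly.snd NPC.Poly.id)
  have hnp : Poly next := by
    have h1 : PC (fun x : List Bool => x) (fun x : List Bool => x) N :=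
      H642R2.TMSim.polyTime_toPC hN
    obtain ⟨c, q, hc⟩ := h1
    refine ⟨c, q, fun s => ?_⟩
    have h2 := hc (bits s)
    rw [hnext] at h2
    exact h2
  have hcomp : Poly (fun s : List Bool × List Bool => next (f s.1, s.2)) := hnp.comp hg
  -- the raw machine
  obtain ⟨F, hF, hF'⟩ : ∃ F : List Bool → List Bool, PolyTime F ∧
      ∀ s : List Bool × List Bool, F (bits s) = bits (next (f s.1, s.2)) := by
    exact ⟨_, polyTime_opt (g := fun y => (unbits (List Bool × List Bool) y).map
      (fun s => next (f s.1, s.2))) (NPC.Poly.optMap poly_unbits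
        (hcomp.comp (NPC.Poly.snd NPC.Poly.id))), fun s => by simp [unbits_bits]⟩
  refine ⟨fun s => next (f s.1, s.2), F, p.comp (r.comp (Polynomial.C 4 * Polynomial.X +
    Polynomial.C 1)), hF, hF', fun x => ?_⟩
  have hb : p.eval (f x).length ≤
      (p.comp (r.comp (Polynomial.C 4 * Polynomial.X + Polynomial.C 1))).eval x.length := by
    rw [Polynomial.eval_comp, Polynomial.eval_comp]
    refine eval_mono p ?_
    simpa using hlen x
  obtain ⟨ans, h1, h2, b, h3, h4⟩ := hrun (f x)
  refine ⟨ans, h1.trans hb, fun i hi => ?_, b, h3, h4.trans (hfL x).symm⟩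
  obtain ⟨q, hq1, hq2, hq3⟩ := h2 i hi
  exact ⟨q, hq1, hq2.trans hb, hq3⟩

/-- MS is equivalent to GI under many-one reductions iff GI is NP-complete. -/
theorem many_one : (Reduces (lang MS) (lang GI) ∧ Reduces (lang GI) (lang MS)) ↔
    NPComplete (lang GI) := by
  constructor
  · rintro ⟨h, _⟩
    exact ⟨inNP_GI, fun L hL => (npComplete_MS.2 L hL).trans h⟩
  · intro h
    exact ⟨h.2 _ npComplete_MS.1, npComplete_MS.2 _ inNP_GI⟩

/-- a many-one reduction is a Turing reduction -/
theorem TuringReduces.of_reduces {L M : Set (List Bool)} (h : Reduces L M) :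
    TuringReduces L M := by
  refine TuringReduces.comp h ?_
  obtain ⟨F, hF, hF'⟩ : ∃ F : List Bool → List Bool, PolyTime F ∧
      ∀ s : List Bool × List Bool, F (bits s) =
        bits (if s.2.length = 0 then Sum.inl s.1 else Sum.inr (s.2.getD 0 false) :
          List Bool ⊕ Bool) := by
    have hg : Poly (fun s : List Bool × List Bool =>
        (if s.2.length = 0 then Sum.inl s.1 else Sum.inr (s.2.getD 0 false) :
          List Bool ⊕ Bool)) := by
      fun_prop
    exact ⟨_, polyTime_opt (g := fun y => (unbits (List Bool × List Bool) y).map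
      (fun s => (if s.2.length = 0 then Sum.inl s.1 else Sum.inr (s.2.getD 0 false) :
          List Bool ⊕ Bool))) (NPC.Poly.optMap poly_unbits
        (hg.comp (NPC.Poly.snd NPC.Poly.id))), fun s => by simp [unbits_bits]⟩
  refine ⟨_, F, Polynomial.X + 1, hF, hF', fun x => ?_⟩
  classical
  refine ⟨[decide (x ∈ M)], by simp, ?_, decide (x ∈ M), by simp, by simp⟩
  intro i hi
  simp only [List.length_cons, List.length_nil, Nat.zero_add, Nat.lt_one_iff] at hi
  subst hi
  exact ⟨x, by simp, by simp, by simp⟩

/-- MS is equivalent to GI under Turing reductions iff GI is NP-hard under Turing reductions. -/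
theorem turing : (TuringReduces (lang MS) (lang GI) ∧ TuringReduces (lang GI) (lang MS)) ↔
    ∀ L, InNP L → TuringReduces L (lang GI) := by
  constructor
  · rintro ⟨h, _⟩ L hL
    exact TuringReduces.comp (npComplete_MS.2 L hL) h
  · intro h
    exact ⟨h _ npComplete_MS.1, TuringReduces.of_reduces (npComplete_MS.2 _ inNP_GI)⟩

end Pool.Agent.K6.H49.MS
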