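import Pool.Agent.K6.H49.MS.Red
import Pool.Agent.K6.H49.MS.Defs
import Pool.Agent.H671R2.PolyAuto

/-!
# MS is NP-hard
-/

namespace Pool.Agent.K6.H49.MS

open Pool.Agent.NPC

theorem sym_iff {n : ℕ} (A : Matrix (Fin n) (Fin n) Bool) (σ : Equiv.Perm (Fin n)) :
    (σ.permMatrix ℤ * toInt A).transpose = σ.permMatrix ℤ * toInt A ↔ Sym A σ := by
  have h : ∀ i j, (σ.permMatrix ℤ * toInt A) i j = if A (σ i) j then 1 else 0 := by
    intro i j
    rw [Equiv.Perm.permMatrix, PEquiv.toMatrix_toPEquiv_mul]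
    rfl
  constructor
  · intro hs a b
    have h1 := congrFun (congrFun hs b) a
    rw [Matrix.transpose_apply, h, h] at h1
    cases h2 : A (σ a) b <;> cases h3 : A (σ b) a <;> simp_all
  · intro hs
    ext i j
    rw [Matrix.transpose_apply, h, h, hs j i]

def b3s : List B3 := [(false, false, false), (false, false, true), (false, true, false),
  (false, true, true), (true, false, false), (true, false, true), (true, true, false),
  (true, true, true)]

def LJ (m : ℕ) : List ((ℕ × Bool) ⊕ ((ℕ × ℕ) × (B3 × Bool))) :=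
  ((List.range (3 * m)) ×ˢ [false, true]).map Sum.inl ++
    (((List.range m) ×ˢ [0, 1, 2]) ×ˢ (b3s ×ˢ [false, true])).map Sum.inr

/-- the list of all labels -/
def LL (m : ℕ) : List Lab := (LJ m).map Sum.inl ++ (List.range (MM m)).map Sum.inr

theorem nodup_LL (m : ℕ) : (LL m).Nodup := by
  have hB : ([false, true] : List Bool).Nodup := by decide
  have h3 : ([0, 1, 2] : List ℕ).Nodup := by decide
  have hb : b3s.Nodup := by decide
  have hJ : (LJ m).Nodup := by
    refine List.Nodup.append ?_ ?_ ?_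
    · exact ((List.nodup_range).product hB).map Sum.inl_injective
    · exact (((List.nodup_range).product h3).product (hb.product hB)).map Sum.inr_injective
    · intro a ha hb
      obtain ⟨p, _, rfl⟩ := List.mem_map.1 ha
      obtain ⟨q, _, h⟩ := List.mem_map.1 hb
      simp at h
  refine List.Nodup.append (hJ.map Sum.inl_injective) (List.nodup_range.map Sum.inr_injective) ?_
  intro a ha hb
  obtain ⟨p, _, rfl⟩ := List.mem_map.1 ha
  obtain ⟨q, _, h⟩ := List.mem_map.1 hb
  simp at h

theorem mem_prod {α β : Type} {l : List α} {l' : List β} {p : α × β} :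
    p ∈ l ×ˢ l' ↔ p.1 ∈ l ∧ p.2 ∈ l' := by
  obtain ⟨a, b⟩ := p
  exact List.pair_mem_product

theorem mem_LL {m : ℕ} (z : Lab) : z ∈ LL m ↔ ∃ x : I m, lab x = z := by
  have hB : ∀ i : Bool, i ∈ [false, true] := by decide
  have hb : ∀ x : B3, x ∈ b3s := by decide
  unfold LL LJ
  rcases z with (⟨v, i⟩ | ⟨⟨c, k⟩, x, i⟩) | t
  · simp only [List.mem_append, List.mem_map, mem_prod, List.mem_range]
    constructor
    · intro h
      have h1 : v < 3 * m := by
        rcases h with ⟨a, h1 | h1, h2⟩ | ⟨a, _, h2⟩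
        · obtain ⟨b, ⟨hb1, _⟩, rfl⟩ := h1
          simp only [Sum.inl.injEq] at h2
          rw [h2] at hb1
          exact hb1
        · obtain ⟨b, _, rfl⟩ := h1
          simp at h2
        · simp at h2
      exact ⟨Sum.inl (Sum.inl (⟨v, h1⟩, i)), rfl⟩
    · rintro ⟨(⟨v', i'⟩ | ⟨⟨c, k⟩, x, i'⟩) | t, h⟩
      · simp only [lab, labJ, Sum.map_inl, Sum.inl.injEq, Prod.mk.injEq] at h
        obtain ⟨rfl, rfl⟩ := h
        exact Or.inl ⟨_, Or.inl ⟨_, ⟨v'.2, hB _⟩, rfl⟩, rfl⟩
      · simp [lab, labJ] at h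
      · simp [lab] at h
  · simp only [List.mem_append, List.mem_map, mem_prod, List.mem_range]
    constructor
    · intro h
      have h1 : c < m ∧ k < 3 := by
        rcases h with ⟨a, h1 | h1, h2⟩ | ⟨a, _, h2⟩
        · obtain ⟨b, _, rfl⟩ := h1
          simp at h2
        · obtain ⟨b, ⟨⟨hb1, hb2⟩, _⟩, rfl⟩ := h1
          simp only [Sum.inl.injEq, Sum.inr.injEq] at h2
          rw [h2] at hb1 hb2
          refine ⟨hb1, ?_⟩
          simp only [List.mem_cons, List.not_mem_nil, or_false] at hb2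
          omega
        · simp at h2
      exact ⟨Sum.inl (Sum.inr ((⟨c, h1.1⟩, ⟨k, h1.2⟩), x, i)), rfl⟩
    · rintro ⟨(⟨v', i'⟩ | ⟨⟨c', k'⟩, x', i'⟩) | t, h⟩
      · simp [lab, labJ] at h
      · simp only [lab, labJ, Sum.map_inl, Sum.map_inr, Sum.inl.injEq, Sum.inr.injEq,
          Prod.mk.injEq] at h
        obtain ⟨⟨rfl, rfl⟩, rfl, rfl⟩ := h
        refine Or.inl ⟨_, Or.inr ⟨((c'.val, k'.val), x', i'), ⟨⟨c'.2, ?_⟩, hb _, hB _⟩, rfl⟩, rfl⟩
        have := k'.2
        simp only [List.mem_cons, List.not_mem_nil, or_false]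
        omega
      · simp [lab] at h
  · simp only [List.mem_append, List.mem_map, List.mem_range]
    constructor
    · rintro (⟨a, _, h⟩ | ⟨a, h1, h2⟩)
      · simp at h
      · simp only [Sum.inr.injEq] at h2
        rw [h2] at h1
        exact ⟨Sum.inr ⟨t, h1⟩, rfl⟩
    · rintro ⟨(⟨v', i'⟩ | ⟨⟨c', k'⟩, x', i'⟩) | s, h⟩
      · simp [lab] at h
      · simp [lab] at h
      · simp only [lab, Sum.map_inr, Sum.inr.injEq] at h
        rw [← h]
        exact Or.inr ⟨_, s.2, rfl⟩

/-- the matrix of a formula, as a list of rows -/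
def red (φ : Fm) : List (List Bool) :=
  (LL φ.length).map fun a => (LL φ.length).map fun b => E φ a b

theorem rows_inj {n m : ℕ} {A : Matrix (Fin n) (Fin n) Bool} {B : Matrix (Fin m) (Fin m) Bool}
    (h : rows A = rows B) : ∃ e : n = m, ∀ i j, A i j = B (Fin.cast e i) (Fin.cast e j) := by
  have h1 : n = m := by simpa [rows] using congrArg List.length h
  subst h1
  refine ⟨rfl, fun i j => ?_⟩
  have h2 := List.ofFn_injective h
  exact congrFun (List.ofFn_injective (congrFun h2 i)) j

theorem ms_rows {n : ℕ} {A : Matrix (Fin n) (Fin n) Bool} :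
    MS (rows A) ↔ ∃ σ : Equiv.Perm (Fin n), Sym A σ := by
  constructor
  · rintro ⟨m, B, h, σ, hσ⟩
    rw [sym_iff] at hσ
    obtain ⟨rfl, h1⟩ := rows_inj h
    refine ⟨σ, fun a b => ?_⟩
    rw [h1, h1]
    exact hσ a b
  · rintro ⟨σ, hσ⟩
    exact ⟨n, A, rfl, σ, (sym_iff A σ).2 hσ⟩

theorem ms_red (φ : Fm) : MS (red φ) ↔ ∃ σ : Equiv.Perm (I φ.length), Sym (mat φ) σ := by
  obtain ⟨e, he⟩ := R671.exists_equiv (LL φ.length) (nodup_LL _) (lab (m := φ.length)) lab_inj
    (fun z => mem_LL z)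
  have h1 : red φ = rows (Matrix.of fun i j => mat φ (e i) (e j)) := by
    unfold red rows mat
    apply List.ext_getElem
    · simp
    · intro i h1 h2
      simp only [List.length_map] at h1
      simp only [List.getElem_ofFn, List.getElem_map]
      apply List.ext_getElem
      · simp
      · intro j h3 h4
        simp only [List.length_map] at h3
        have e1 := he ⟨i, h1⟩
        have e2 := he ⟨j, h3⟩
        simp only [Fin.getElem_fin] at e1 e2
        simp only [List.getElem_map, List.getElem_ofFn, Matrix.of_apply, e1, e2]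
  rw [h1, ms_rows]
  constructor
  · rintro ⟨σ, hσ⟩
    refine ⟨(e.symm.trans σ).trans e, fun a b => ?_⟩
    have := hσ (e.symm a) (e.symm b)
    simpa using this
  · rintro ⟨σ, hσ⟩
    refine ⟨(e.trans σ).trans e.symm, fun a b => ?_⟩
    have := hσ (e a) (e b)
    simpa using this

theorem poly_lk {α : Type} [TEnc α] {v : α → ℕ} {i : α → Bool} {C : α → Cl} {x : α → B3}
    (hv : Poly v) (hi : Poly i) (hC : Poly C) (hx : Poly x) :
    Poly (fun a => lk (v a) (i a) (C a) (x a)) := by
  unfold lk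
  fun_prop

theorem poly_lk' {α : Type} [TEnc α] {v : α → ℕ} {i : α → Bool} {C : α → Cl} {x : α → B3}
    (hv : Poly v) (hi : Poly i) (hC : Poly C) (hx : Poly x) :
    Poly (fun a => lk' (C a) (x a) (v a) (i a)) := by
  unfold lk'
  fun_prop

theorem poly_inn {α : Type} [TEnc α] {p q : α → (ℕ × ℕ) × (B3 × Bool)}
    (hp : Poly p) (hq : Poly q) : Poly (fun a => inn (p a) (q a)) := by
  unfold inn
  fun_prop

theorem poly_cl {α : Type} [TEnc α] {m : α → ℕ} {p : α → (ℕ × Bool) ⊕ ((ℕ × ℕ) × (B3 × Bool))}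
    (hm : Poly m) (hp : Poly p) : Poly (fun a => cl (m a) (p a)) := by
  unfold cl
  fun_prop

theorem poly_TT {α : Type} [TEnc α] {m : α → ℕ} (hm : Poly m) : Poly (fun a => TT (m a)) := by
  unfold TT
  fun_prop

attribute [local fun_prop] poly_lk poly_lk' poly_inn poly_cl poly_TT

theorem poly_E0 {α : Type} [TEnc α] {φ : α → Fm} {p q : α → (ℕ × Bool) ⊕ ((ℕ × ℕ) × (B3 × Bool))}
    (hφ : Poly φ) (hp : Poly p) (hq : Poly q) : Poly (fun a => E0 (φ a) (p a) (q a)) := by
  unfold E0
  fun_prop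

attribute [local fun_prop] poly_E0

theorem poly_E {α : Type} [TEnc α] {φ : α → Fm} {p q : α → Lab}
    (hφ : Poly φ) (hp : Poly p) (hq : Poly q) : Poly (fun a => E (φ a) (p a) (q a)) := by
  unfold E
  fun_prop

attribute [local fun_prop] poly_E

theorem poly_LL : Poly (fun φ : Fm => LL φ.length) := by
  have hl : UPoly (fun φ : Fm => φ.length) := UPoly.length Poly.id
  have h1 : Poly (fun φ : Fm => List.range (3 * φ.length)) :=
    UPoly.range (UPoly.mul (UPoly.const 3) hl)
  have h2 : Poly (fun φ : Fm => List.range φ.length) := UPoly.range hl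
  have h3 : Poly (fun φ : Fm => List.range (MM φ.length)) := by
    unfold MM TT
    exact UPoly.range (UPoly.mul (UPoly.add (UPoly.mul (UPoly.const 54) hl) (UPoly.const 1))
      (UPoly.mul (UPoly.const 6) hl))
  unfold LL LJ b3s
  fun_prop

theorem poly_red : Poly red := by
  unfold red
  exact NPC.Poly.map (F := fun (φ : Fm) (a : Lab) => (LL φ.length).map fun b => E φ a b) poly_LL
    (NPC.Poly.map (l := fun p : Fm × Lab => LL p.1.length) (F := fun (p : Fm × Lab) (b : Lab) =>
      E p.1 p.2 b) (poly_LL.comp (Poly.fst Poly.id)) (by fun_prop))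

theorem hardI_MS : HardI MS :=
  (hardPr_SAT3b.trans (Pr' := fun _ => True) poly_red (fun _ _ => trivial) fun φ hφ => by
    rw [ms_red]
    exact ⟨complete_key hφ.1, fun ⟨σ, hσ⟩ => sound_key hφ.1 hφ.2.1 hσ⟩).toHardI

end Pool.Agent.K6.H49.MS
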