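import Pool.Agent.K6.H49.MS.Hard
import Pool.Agent.H609R2.NPClosure

/-!
# MS and GI are in NP
-/

namespace Pool.Agent.K6.H49.MS

open Pool.Agent.NPC

/-- entry of a list of lists -/
def ent (L : List (List Bool)) (i j : ℕ) : Bool := (L.getD i []).getD j false

theorem ent_rows {n : ℕ} (A : Matrix (Fin n) (Fin n) Bool) (i j : Fin n) :
    ent (rows A) i.val j.val = A i j := by
  unfold ent rows
  simp [List.getD_eq_getElem?_getD]

/-- all rows have the right length -/
def sqr (L : List (List Bool)) : Bool := L.all fun r => decide (r.length = L.length)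

theorem sqr_rows {n : ℕ} (A : Matrix (Fin n) (Fin n) Bool) : sqr (rows A) = true := by
  unfold sqr rows
  simp

theorem exists_rows {L : List (List Bool)} (h : sqr L = true) :
    ∃ A : Matrix (Fin L.length) (Fin L.length) Bool, L = rows A := by
  refine ⟨Matrix.of fun i j => ent L i.val j.val, ?_⟩
  unfold sqr at h
  rw [List.all_eq_true] at h
  apply List.ext_getElem
  · simp [rows]
  · intro i h1 h2
    have h3 := h _ (List.getElem_mem h1)
    rw [decide_eq_true_eq] at h3
    apply List.ext_getElem
    · simp [rows, h3]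
    · intro j h4 h5
      simp [rows, ent, h4]

/-- the list is a permutation of `0, ..., n - 1` -/
def prm (n : ℕ) (w : List ℕ) : Bool :=
  (List.range n).all fun i => decide (w.getD i 0 < n) &&
    (List.range n).all fun j => decide (i = j) || !decide (w.getD i 0 = w.getD j 0)

theorem exists_perm {n : ℕ} {w : List ℕ} (h : prm n w = true) :
    ∃ σ : Equiv.Perm (Fin n), ∀ i : Fin n, (σ i).val = w.getD i.val 0 := by
  unfold prm at h
  simp only [List.all_eq_true, List.mem_range, Bool.and_eq_true, decide_eq_true_eq,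
    Bool.or_eq_true, Bool.not_eq_true', decide_eq_false_iff_not] at h
  let f : Fin n → Fin n := fun i => ⟨w.getD i.val 0, (h i.val i.2).1⟩
  have hf : Function.Injective f := by
    intro i j hij
    rcases (h i.val i.2).2 j.val j.2 with h1 | h1
    · exact Fin.ext h1
    · exact absurd (congrArg Fin.val hij) h1
  exact ⟨Equiv.ofBijective f (Finite.injective_iff_bijective.1 hf), fun i => rfl⟩

theorem prm_ofFn {n : ℕ} (σ : Equiv.Perm (Fin n)) :
    prm n (List.ofFn fun i => (σ i).val) = true := by
  unfold prm
  simp only [List.all_eq_true, List.mem_range, Bool.and_eq_true, decide_eq_true_eq,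
    Bool.or_eq_true, Bool.not_eq_true', decide_eq_false_iff_not]
  intro i hi
  have h1 : ∀ k (hk : k < n), (List.ofFn fun i => (σ i).val).getD k 0 = (σ ⟨k, hk⟩).val := by
    intro k hk
    simp [List.getD_eq_getElem?_getD, hk]
  refine ⟨by rw [h1 i hi]; exact (σ ⟨i, hi⟩).2, fun j hj => ?_⟩
  rw [h1 i hi, h1 j hj]
  by_cases hij : i = j
  · exact Or.inl hij
  · right
    intro h2
    have h3 := σ.injective (Fin.ext h2)
    simp only [Fin.mk.injEq] at h3
    exact hij h3

theorem getD_ofFn {n : ℕ} (σ : Equiv.Perm (Fin n)) (i : Fin n) :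
    (List.ofFn fun i => (σ i).val).getD i.val 0 = (σ i).val := by
  simp [List.getD_eq_getElem?_getD]

theorem sz_cert {n : ℕ} (σ : Equiv.Perm (Fin n)) :
    sz (List.ofFn fun i => (σ i).val) ≤ n * (4 * n + 2) + 1 := by
  have h1 := sz_le_length_mul (List.ofFn fun i => (σ i).val) (4 * n + 1) (by
    intro a ha
    rw [List.mem_ofFn] at ha
    obtain ⟨i, rfl⟩ := ha
    have h2 := sz_nat_le (σ i).val
    have h3 := NPC.Poly.size_le_self (σ i).val
    have h4 := (σ i).2
    omega)
  rw [List.length_ofFn] at h1
  linarith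

/-- the verifier of MS -/
def verMS (p : List (List Bool) × List ℕ) : Bool :=
  sqr p.1 && (prm p.1.length p.2 && (List.range p.1.length).all fun i =>
    (List.range p.1.length).all fun j =>
      decide (ent p.1 (p.2.getD i 0) j = ent p.1 (p.2.getD j 0) i))

theorem ms_iff (L : List (List Bool)) :
    MS L ↔ ∃ w : List ℕ, sz w ≤ (Polynomial.X * (Polynomial.C 4 * Polynomial.X + Polynomial.C 2) +
      Polynomial.C 1 : Polynomial ℕ).eval (sz L) ∧ verMS (L, w) = true := by
  constructor
  · rintro ⟨n, A, rfl, σ, hσ⟩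
    rw [sym_iff] at hσ
    refine ⟨List.ofFn fun i => (σ i).val, ?_, ?_⟩
    · refine (sz_cert σ).trans ?_
      have h1 := length_lt_sz (rows A)
      have h2 : (rows A).length = n := by simp [rows]
      simp only [Polynomial.eval_add, Polynomial.eval_mul, Polynomial.eval_C, Polynomial.eval_X]
      have h3 : n ≤ sz (rows A) := by omega
      gcongr
    · have h2 : (rows A).length = n := by simp [rows]
      unfold verMS
      simp only [sqr_rows, h2, prm_ofFn, Bool.true_and, List.all_eq_true, List.mem_range,
        decide_eq_true_eq]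
      intro i hi j hj
      have e1 := getD_ofFn σ ⟨i, hi⟩
      have e2 := getD_ofFn σ ⟨j, hj⟩
      simp only at e1 e2
      rw [e1, e2]
      have e3 := ent_rows A (σ ⟨i, hi⟩) ⟨j, hj⟩
      have e4 := ent_rows A (σ ⟨j, hj⟩) ⟨i, hi⟩
      simp only at e3 e4
      rw [e3, e4]
      exact hσ _ _
  · rintro ⟨w, _, h⟩
    unfold verMS at h
    simp only [Bool.and_eq_true, List.all_eq_true, List.mem_range, decide_eq_true_eq] at h
    obtain ⟨h1, h2, h3⟩ := h
    obtain ⟨A, hA⟩ := exists_rows h1
    obtain ⟨σ, hσ⟩ := exists_perm h2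
    refine ⟨L.length, A, hA, σ, (sym_iff A σ).2 fun a b => ?_⟩
    have h4 := h3 a.val a.2 b.val b.2
    rw [← hσ, ← hσ] at h4
    have e1 := ent_rows A (σ a) b
    have e2 := ent_rows A (σ b) a
    rw [← e1, ← e2, ← hA]
    exact h4

theorem poly_ent {α : Type} [TEnc α] {L : α → List (List Bool)} {i j : α → ℕ} (hL : Poly L)
    (hi : Poly i) (hj : Poly j) : Poly (fun a => ent (L a) (i a) (j a)) := by
  unfold ent
  fun_prop

theorem poly_sqr {α : Type} [TEnc α] {L : α → List (List Bool)} (hL : Poly L) :
    Poly (fun a => sqr (L a)) := by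
  unfold sqr
  fun_prop

theorem poly_prm {α β : Type} [TEnc α] [TEnc β] {L : α → List β} {w : α → List ℕ} (hL : Poly L)
    (hw : Poly w) : Poly (fun a => prm (L a).length (w a)) := by
  have hr : Poly (fun a => List.range (L a).length) := UPoly.range (UPoly.length hL)
  unfold prm
  exact NPC.Poly.all (l := fun a => List.range (L a).length) hr (NPC.Poly.and (by fun_prop)
    (NPC.Poly.all (l := fun p : α × ℕ => List.range (L p.1).length) (hr.comp (Poly.fst Poly.id))
      (by fun_prop)))

attribute [local fun_prop] poly_ent poly_sqr poly_prm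

theorem poly_verMS : Poly verMS := by
  have hr : Poly (fun p : List (List Bool) × List ℕ => List.range p.1.length) :=
    UPoly.range (UPoly.length (Poly.fst Poly.id))
  unfold verMS
  refine NPC.Poly.and (by fun_prop) (NPC.Poly.and (by fun_prop) ?_)
  exact NPC.Poly.all (l := fun p : List (List Bool) × List ℕ => List.range p.1.length) hr
    (NPC.Poly.all (l := fun p : (List (List Bool) × List ℕ) × ℕ => List.range p.1.1.length)
      (hr.comp (Poly.fst Poly.id)) (by fun_prop))

theorem inNPP_MS : InNPP MS := inNPP_of poly_verMS _ ms_iff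

/-! ### GI -/

/-- symmetric with zero diagonal -/
def grf (L : List (List Bool)) : Bool :=
  (List.range L.length).all fun i => (!ent L i i) &&
    (List.range L.length).all fun j => decide (ent L i j = ent L j i)

theorem grf_adj {n : ℕ} (G : SimpleGraph (Fin n)) : grf (rows (adj G)) = true := by
  unfold grf
  have h2 : (rows (adj G)).length = n := by simp [rows]
  simp only [h2, List.all_eq_true, List.mem_range, Bool.and_eq_true, decide_eq_true_eq,
    Bool.not_eq_true']
  intro i hi
  have e1 := ent_rows (adj G) ⟨i, hi⟩ ⟨i, hi⟩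
  simp only at e1
  rw [e1]
  refine ⟨by simp [adj], fun j hj => ?_⟩
  have e2 := ent_rows (adj G) ⟨i, hi⟩ ⟨j, hj⟩
  have e3 := ent_rows (adj G) ⟨j, hj⟩ ⟨i, hi⟩
  simp only at e2 e3
  rw [e2, e3]
  simp [adj, G.adj_comm]

theorem exists_adj {n : ℕ} {A : Matrix (Fin n) (Fin n) Bool} (h : grf (rows A) = true) :
    ∃ G : SimpleGraph (Fin n), A = adj G := by
  unfold grf at h
  have h2 : (rows A).length = n := by simp [rows]
  simp only [h2, List.all_eq_true, List.mem_range, Bool.and_eq_true, decide_eq_true_eq,
    Bool.not_eq_true'] at h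
  have e1 : ∀ i, A i i = false := fun i => (ent_rows A i i).symm.trans (h i.val i.2).1
  have e2 : ∀ i j, A i j = A j i := fun i j =>
    (ent_rows A i j).symm.trans (((h i.val i.2).2 j.val j.2).trans (ent_rows A j i))
  refine ⟨⟨fun i j => A i j = true, ⟨fun i j hij => by rw [e2]; exact hij⟩,
    ⟨fun i hi => by rw [e1] at hi; exact absurd hi (by simp)⟩⟩, ?_⟩
  funext i j
  simp [adj]

/-- the verifier of GI -/
def verGI (p : (List (List Bool) × List (List Bool)) × List ℕ) : Bool :=
  (sqr p.1.1 && sqr p.1.2) && ((grf p.1.1 && grf p.1.2) &&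
    (decide (p.1.1.length = p.1.2.length) && (prm p.1.1.length p.2 &&
      (List.range p.1.1.length).all fun i => (List.range p.1.1.length).all fun j =>
        decide (ent p.1.1 i j = ent p.1.2 (p.2.getD i 0) (p.2.getD j 0)))))

theorem gi_iff (L : List (List Bool) × List (List Bool)) :
    GI L ↔ ∃ w : List ℕ, sz w ≤ (Polynomial.X * (Polynomial.C 4 * Polynomial.X + Polynomial.C 2) +
      Polynomial.C 1 : Polynomial ℕ).eval (sz L) ∧ verGI (L, w) = true := by
  constructor
  · rintro ⟨n, m, G, H, rfl, ⟨f⟩⟩
    have hnm : n = m := by simpa using Fintype.card_congr f.toEquiv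
    subst hnm
    refine ⟨List.ofFn fun i => (f.toEquiv i).val, ?_, ?_⟩
    · refine (sz_cert f.toEquiv).trans ?_
      have h1 := length_lt_sz (rows (adj G))
      have h2 : (rows (adj G)).length = n := by simp [rows]
      simp only [Polynomial.eval_add, Polynomial.eval_mul, Polynomial.eval_C, Polynomial.eval_X,
        sz_pair]
      have h3 : n ≤ sz (rows (adj G)) + sz (rows (adj H)) + 1 := by omega
      gcongr
    · have h2 : (rows (adj G)).length = n := by simp [rows]
      have h3 : (rows (adj H)).length = n := by simp [rows]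
      unfold verGI
      simp only [sqr_rows, grf_adj, h2, h3, prm_ofFn, Bool.true_and, List.all_eq_true,
        List.mem_range, decide_eq_true_eq, decide_true]
      intro i hi j hj
      have e1 := getD_ofFn f.toEquiv ⟨i, hi⟩
      have e2 := getD_ofFn f.toEquiv ⟨j, hj⟩
      simp only at e1 e2
      rw [e1, e2]
      have e3 := ent_rows (adj G) ⟨i, hi⟩ ⟨j, hj⟩
      have e4 := ent_rows (adj H) (f.toEquiv ⟨i, hi⟩) (f.toEquiv ⟨j, hj⟩)
      simp only at e3 e4
      rw [e3, e4]
      simp only [adj, decide_eq_decide]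
      exact f.map_adj_iff.symm
  · rintro ⟨w, _, h⟩
    obtain ⟨L1, L2⟩ := L
    unfold verGI at h
    simp only [Bool.and_eq_true, List.all_eq_true, List.mem_range, decide_eq_true_eq] at h
    obtain ⟨⟨h1, h2⟩, ⟨h3, h4⟩, h5, h6, h7⟩ := h
    obtain ⟨A, hA⟩ := exists_rows h1
    obtain ⟨B, hB⟩ := exists_rows h2
    obtain ⟨σ, hσ⟩ := exists_perm h6
    generalize L1.length = n at *
    generalize L2.length = m at *
    subst h5
    rw [hA] at h3 h7
    rw [hB] at h4 h7
    obtain ⟨G, rfl⟩ := exists_adj h3
    obtain ⟨H, rfl⟩ := exists_adj h4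
    refine ⟨n, n, G, H, by rw [hA, hB], ⟨⟨σ, fun {a b} => ?_⟩⟩⟩
    have h8 := h7 a.val a.2 b.val b.2
    rw [← hσ, ← hσ, ent_rows, ent_rows] at h8
    simp only [adj, decide_eq_decide] at h8
    exact h8.symm

theorem poly_grf {α : Type} [TEnc α] {L : α → List (List Bool)} (hL : Poly L) :
    Poly (fun a => grf (L a)) := by
  have hr : Poly (fun a => List.range (L a).length) := UPoly.range (UPoly.length hL)
  unfold grf
  exact NPC.Poly.all (l := fun a => List.range (L a).length) hr (NPC.Poly.and (by fun_prop)
    (NPC.Poly.all (l := fun p : α × ℕ => List.range (L p.1).length) (hr.comp (Poly.fst Poly.id))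
      (by fun_prop)))

attribute [local fun_prop] poly_grf

theorem poly_verGI : Poly verGI := by
  have hr : Poly (fun p : (List (List Bool) × List (List Bool)) × List ℕ =>
      List.range p.1.1.length) :=
    UPoly.range (UPoly.length (Poly.fst (Poly.fst Poly.id)))
  unfold verGI
  refine NPC.Poly.and (by fun_prop) (NPC.Poly.and (by fun_prop) (NPC.Poly.and (by fun_prop)
    (NPC.Poly.and (by fun_prop) ?_)))
  exact NPC.Poly.all (l := fun p : (List (List Bool) × List (List Bool)) × List ℕ =>
      List.range p.1.1.length) hr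
    (NPC.Poly.all (l := fun p : ((List (List Bool) × List (List Bool)) × List ℕ) × ℕ =>
      List.range p.1.1.1.length) (hr.comp (Poly.fst Poly.id)) (by fun_prop))

theorem inNPP_GI : InNPP GI := inNPP_of poly_verGI _ gi_iff

end Pool.Agent.K6.H49.MS
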