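import Pool.Agent.K6.H49.MS.Core
import Pool.Agent.NPC.Sat2

/-!
# The matrix of a formula
-/

namespace Pool.Agent.K6.H49.MS

open Pool.Agent.NPC

abbrev Cl : Type := Lit ℕ × Lit ℕ × Lit ℕ

abbrev Fm : Type := List Cl

abbrev B3 : Type := Bool × Bool × Bool

/-- labels of rows and columns -/
abbrev Lab : Type := ((ℕ × Bool) ⊕ ((ℕ × ℕ) × (B3 × Bool))) ⊕ ℕ

def dflt : Cl := ((true, 0), (true, 0), (true, 0))

/-- row of a variable, column of a clause -/
def lk (v : ℕ) (i : Bool) (C : Cl) (x : B3) : Bool :=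
  decide ((v = C.1.2 ∧ i = x.1) ∨ (v = C.2.1.2 ∧ i = x.2.1) ∨ (v = C.2.2.2 ∧ i = x.2.2))

/-- row of a clause, column of a variable -/
def lk' (C : Cl) (x : B3) (v : ℕ) (i : Bool) : Bool :=
  decide ((v = C.1.2 ∧ i = xor x.1 (!C.1.1)) ∨ (v = C.2.1.2 ∧ i = xor x.2.1 (!C.2.1.1)) ∨
    (v = C.2.2.2 ∧ i = xor x.2.2 (!C.2.2.1)))

/-- row and column of a clause -/
def inn (p : (ℕ × ℕ) × (B3 × Bool)) (q : (ℕ × ℕ) × (B3 × Bool)) : Bool :=
  decide ((p.1.1 = q.1.1 ∧ p.2.1 = q.2.1) ∧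
    ((p.1.2 < q.1.2 ∧ p.2.2 = q.2.2) ∨ (q.1.2 < p.1.2 ∧ ¬ p.2.2 = q.2.2)))

/-- the number of the class -/
def cl (m : ℕ) (a : (ℕ × Bool) ⊕ ((ℕ × ℕ) × (B3 × Bool))) : ℕ :=
  Sum.elim (fun p => p.1 + 1) (fun q => 3 * m + 3 * q.1.1 + q.1.2 + 1) a

/-- the number of rows that are not additional -/
def TT (m : ℕ) : ℕ := 54 * m

/-- the entry in row `a` and column `b` between rows and columns that are not additional -/
def E0 (φ : Fm) (a b : (ℕ × Bool) ⊕ ((ℕ × ℕ) × (B3 × Bool))) : Bool :=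
  Sum.elim
    (fun p => Sum.elim (fun _ => false) (fun q => lk p.1 p.2 (φ.getD q.1.1 dflt) q.2.1) b)
    (fun q => Sum.elim (fun p => lk' (φ.getD q.1.1 dflt) q.2.1 p.1 p.2) (fun q' => inn q q') b) a

/-- the entry in row `a` and column `b` -/
def E (φ : Fm) (a b : Lab) : Bool :=
  Sum.elim
    (fun p => Sum.elim (fun q => E0 φ p q)
      (fun t => decide (t < (TT φ.length + 1) * cl φ.length p)) b)
    (fun t => Sum.elim (fun p => decide (t < (TT φ.length + 1) * cl φ.length p))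
      (fun _ => false) b) a

/-- the number of additional rows -/
def MM (m : ℕ) : ℕ := (TT m + 1) * (6 * m)

/-- the rows and columns that are not additional -/
abbrev J (m : ℕ) : Type := (Fin (3 * m) × Bool) ⊕ ((Fin m × Fin 3) × (B3 × Bool))

abbrev I (m : ℕ) : Type := J m ⊕ Fin (MM m)

def labJ {m : ℕ} : J m → (ℕ × Bool) ⊕ ((ℕ × ℕ) × (B3 × Bool)) :=
  Sum.map (fun p => (p.1.val, p.2)) (fun q => ((q.1.1.val, q.1.2.val), q.2))

def lab {m : ℕ} : I m → Lab := Sum.map labJ (fun t => t.val)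

theorem labJ_inj {m : ℕ} : Function.Injective (labJ (m := m)) := by
  rintro (⟨v, i⟩ | ⟨⟨c, k⟩, x, i⟩) (⟨v', i'⟩ | ⟨⟨c', k'⟩, x', i'⟩) h
  · simpa [labJ, Fin.ext_iff] using h
  · simp [labJ] at h
  · simp [labJ] at h
  · simpa [labJ, Fin.ext_iff] using h

theorem lab_inj {m : ℕ} : Function.Injective (lab (m := m)) := by
  rintro (a | s) (b | t) h
  · simp only [lab, Sum.map_inl, Sum.inl.injEq] at h
    rw [labJ_inj h]
  · simp [lab] at h
  · simp [lab] at h
  · simp only [lab, Sum.map_inr, Sum.inr.injEq] at h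
    rw [Fin.ext h]

/-- the matrix -/
def mat (φ : Fm) (a b : I φ.length) : Bool := E φ (lab a) (lab b)

theorem pad (φ : Fm) : Pad (MM φ.length) (TT φ.length) (fun a : J φ.length =>
    cl φ.length (labJ a)) (mat φ) where
  card := by
    simp only [TT, Fintype.card_sum, Fintype.card_prod, Fintype.card_fin, Fintype.card_bool]
    omega
  pos := by
    rintro (⟨v, i⟩ | ⟨⟨c, k⟩, x, i⟩)
    · simp [cl, labJ]
    · simp [cl, labJ]
  le := by
    intro a
    unfold MM
    refine Nat.mul_le_mul_left _ ?_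
    rcases a with ⟨v, i⟩ | ⟨⟨c, k⟩, x, i⟩
    · have := v.2
      simp only [cl, labJ, Sum.map_inl, Sum.elim_inl]
      omega
    · have := c.2
      have := k.2
      simp only [cl, labJ, Sum.map_inr, Sum.elim_inr]
      omega
  lr := fun _ _ => rfl
  rl := fun _ _ => rfl
  rr := fun _ _ => rfl

/-! ### soundness -/

theorem bool_inj_xor (f : Bool → Bool) (h : Function.Injective f) : ∀ i, f i = xor i (f false) := by
  revert f
  decide

theorem no_three (h0 h1 h2 : Bool → Bool) (h01 : ∀ i j, decide (h0 i = j) = decide (h1 j ≠ i))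
    (h02 : ∀ i j, decide (h0 i = j) = decide (h2 j ≠ i))
    (h12 : ∀ i j, decide (h1 i = j) = decide (h2 j ≠ i)) : False := by
  revert h0 h1 h2
  decide

theorem sound_key {φ : Fm} (hd : Distinct3 φ) (hb : Bounded3 φ) {σ : Equiv.Perm (I φ.length)}
    (h : Sym (mat φ) σ) : SAT3 φ := by
  -- the images
  have hc : ∀ a : J φ.length, ∃ a' : J φ.length, σ (Sum.inl a) = Sum.inl a' ∧
      cl φ.length (labJ a') = cl φ.length (labJ a) := fun a => (pad φ).cls_eq h a
  have hv : ∀ (v : Fin (3 * φ.length)) (i : Bool), ∃ j, σ (Sum.inl (Sum.inl (v, i))) =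
      Sum.inl (Sum.inl (v, j)) := by
    intro v i
    obtain ⟨a', h1, h2⟩ := hc (Sum.inl (v, i))
    rcases a' with ⟨v', i'⟩ | ⟨⟨c, k⟩, x, i'⟩
    · simp only [cl, labJ, Sum.map_inl, Sum.elim_inl, Nat.add_right_cancel_iff] at h2
      rw [Fin.val_inj] at h2
      subst h2
      exact ⟨i', h1⟩
    · have := v.2
      simp only [cl, labJ, Sum.map_inl, Sum.elim_inl, Sum.map_inr, Sum.elim_inr] at h2
      omega
  have hq : ∀ (c : Fin φ.length) (k : Fin 3) (x : B3) (i : Bool), ∃ x' i',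
      σ (Sum.inl (Sum.inr ((c, k), x, i))) = Sum.inl (Sum.inr ((c, k), x', i')) := by
    intro c k x i
    obtain ⟨a', h1, h2⟩ := hc (Sum.inr ((c, k), x, i))
    rcases a' with ⟨v', i'⟩ | ⟨⟨c', k'⟩, x', i'⟩
    · have := v'.2
      simp only [cl, labJ, Sum.map_inl, Sum.elim_inl, Sum.map_inr, Sum.elim_inr] at h2
      omega
    · have h3 := k.2
      have h4 := k'.2
      simp only [cl, labJ, Sum.map_inr, Sum.elim_inr] at h2
      have h5 : c' = c := Fin.ext (by omega)
      have h6 : k' = k := Fin.ext (by omega)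
      subst h5 h6
      exact ⟨x', i', h1⟩
  choose f hf using hv
  choose g w hg using hq
  have hf1 : ∀ v i, f v i = xor i (f v false) := by
    intro v
    refine bool_inj_xor (f v) fun i j hij => ?_
    have h1 := hf v i
    have h2 := hf v j
    rw [hij, ← h2] at h1
    have h3 := σ.injective h1
    simpa using h3
  refine ⟨fun v => if hv : v < 3 * φ.length then f ⟨v, hv⟩ false else true, ?_⟩
  intro C hC
  obtain ⟨hb1, hb2, hb3⟩ := hb C hC
  obtain ⟨hd1, hd2, hd3⟩ := hd C hC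
  obtain ⟨c, hcl, hcC⟩ := List.getElem_of_mem hC
  by_contra hcon
  push Not at hcon
  simp only [hb1, hb2, hb3, dif_pos] at hcon
  obtain ⟨n1, n2, n3⟩ := hcon
  have hget : φ.getD c dflt = C := by
    rw [List.getD_eq_getElem?_getD, List.getElem?_eq_getElem hcl, hcC]
    rfl
  -- the classes of a clause are not moved
  have hx : ∀ (k : Fin 3) (x : B3) (i : Bool), g ⟨c, hcl⟩ k x i = x := by
    intro k x i
    have key : ∀ (v : ℕ) (hv : v < 3 * φ.length) (j : Bool),
        lk v (xor j (f ⟨v, hv⟩ false)) C x = lk' C (g ⟨c, hcl⟩ k x i) v j := by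
      intro v hv j
      have h1 := h (Sum.inl (Sum.inl (⟨v, hv⟩, j))) (Sum.inl (Sum.inr ((⟨c, hcl⟩, k), x, i)))
      rw [hf, hg, hf1 ⟨v, hv⟩ j] at h1
      simp only [mat, E, lab, labJ, E0, Sum.map_inl, Sum.map_inr, Sum.elim_inl, Sum.elim_inr,
        hget] at h1
      exact h1
    have e1 := key _ hb1 (xor (g ⟨c, hcl⟩ k x i).1 (!C.1.1))
    have e2 := key _ hb2 (xor (g ⟨c, hcl⟩ k x i).2.1 (!C.2.1.1))
    have e3 := key _ hb3 (xor (g ⟨c, hcl⟩ k x i).2.2 (!C.2.2.1))
    simp only [lk, lk', true_and, hd1, hd2, hd3, Ne.symm hd1, Ne.symm hd2, Ne.symm hd3,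
      false_and, or_false, false_or, decide_true, decide_eq_true_eq] at e1 e2 e3
    refine Prod.ext ?_ (Prod.ext ?_ ?_)
    · rw [← e1]
      revert n1
      cases f ⟨C.1.2, hb1⟩ false <;> cases C.1.1 <;> cases (g ⟨c, hcl⟩ k x i).1 <;> simp
    · rw [← e2]
      revert n2
      cases f ⟨C.2.1.2, hb2⟩ false <;> cases C.2.1.1 <;> cases (g ⟨c, hcl⟩ k x i).2.1 <;> simp
    · rw [← e3]
      revert n3
      cases f ⟨C.2.2.2, hb3⟩ false <;> cases C.2.2.1 <;> cases (g ⟨c, hcl⟩ k x i).2.2 <;> simp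
  have hin : ∀ (k k' : Fin 3), k.val < k'.val → ∀ i j : Bool,
      decide (w ⟨c, hcl⟩ k (false, false, false) i = j) =
        decide (w ⟨c, hcl⟩ k' (false, false, false) j ≠ i) := by
    intro k k' hk i j
    have h1 := h (Sum.inl (Sum.inr ((⟨c, hcl⟩, k), (false, false, false), i)))
      (Sum.inl (Sum.inr ((⟨c, hcl⟩, k'), (false, false, false), j)))
    rw [hg, hg, hx, hx] at h1
    simp only [mat, E, lab, labJ, E0, Sum.map_inl, Sum.map_inr, Sum.elim_inl, Sum.elim_inr,
      inn, hk, true_and, not_lt_of_gt hk, false_and, or_false, false_or] at h1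
    exact h1
  exact no_three _ _ _ (hin 0 1 (by decide)) (hin 0 2 (by decide)) (hin 1 2 (by decide))

/-! ### completeness -/

/-- one of the coordinates -/
def proj (b x : B3) : Bool := if b.1 then x.1 else if b.2.1 then x.2.1 else x.2.2

def addB (b x : B3) : B3 := (xor x.1 b.1, xor x.2.1 b.2.1, xor x.2.2 b.2.2)

theorem addB_addB (b x : B3) : addB b (addB b x) = x := by
  revert b x
  decide

theorem proj_addB (b x : B3) (hb : b ≠ (false, false, false)) :
    proj b (addB b x) = !(proj b x) := by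
  revert b x
  decide

/-- the bits of a clause -/
def bb (τ : ℕ → Bool) (C : Cl) : B3 :=
  (xor (τ C.1.2) (!C.1.1), xor (τ C.2.1.2) (!C.2.1.1), xor (τ C.2.2.2) (!C.2.2.1))

def stepJ (φ : Fm) (τ : ℕ → Bool) : J φ.length → J φ.length :=
  Sum.map (fun p => (p.1, xor p.2 (τ p.1.val)))
    (fun q => (q.1, (addB (bb τ (φ.getD q.1.1.val dflt)) q.2.1,
      xor q.2.2 (proj (bb τ (φ.getD q.1.1.val dflt)) q.2.1))))

def backJ (φ : Fm) (τ : ℕ → Bool) : J φ.length → J φ.length :=
  Sum.map (fun p => (p.1, xor p.2 (τ p.1.val)))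
    (fun q => (q.1, (addB (bb τ (φ.getD q.1.1.val dflt)) q.2.1,
      xor q.2.2 (proj (bb τ (φ.getD q.1.1.val dflt))
        (addB (bb τ (φ.getD q.1.1.val dflt)) q.2.1)))))

theorem back_step (φ : Fm) (τ : ℕ → Bool) (a : J φ.length) : backJ φ τ (stepJ φ τ a) = a := by
  rcases a with ⟨v, i⟩ | ⟨⟨c, k⟩, x, i⟩
  · simp [backJ, stepJ]
  · simp [backJ, stepJ, addB_addB]

theorem step_back (φ : Fm) (τ : ℕ → Bool) (a : J φ.length) : stepJ φ τ (backJ φ τ a) = a := by
  rcases a with ⟨v, i⟩ | ⟨⟨c, k⟩, x, i⟩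
  · simp [backJ, stepJ]
  · simp [backJ, stepJ, addB_addB]

def permJ (φ : Fm) (τ : ℕ → Bool) : Equiv.Perm (J φ.length) :=
  ⟨stepJ φ τ, backJ φ τ, back_step φ τ, step_back φ τ⟩

theorem cl_step (φ : Fm) (τ : ℕ → Bool) (a : J φ.length) :
    cl φ.length (labJ (stepJ φ τ a)) = cl φ.length (labJ a) := by
  rcases a with ⟨v, i⟩ | ⟨⟨c, k⟩, x, i⟩ <;> rfl

theorem lk_step (τ : ℕ → Bool) (C : Cl) (x : B3) (v : ℕ) (i : Bool)
    (hd : C.1.2 ≠ C.2.1.2 ∧ C.1.2 ≠ C.2.2.2 ∧ C.2.1.2 ≠ C.2.2.2) :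
    lk v (xor i (τ v)) C x = lk' C (addB (bb τ C) x) v i := by
  obtain ⟨hd1, hd2, hd3⟩ := hd
  obtain ⟨⟨s1, v1⟩, ⟨s2, v2⟩, ⟨s3, v3⟩⟩ := C
  simp only at hd1 hd2 hd3
  have e : ∀ p q r s : Bool, (xor i q = p) ↔ (i = xor (xor p (xor q (!s))) (!s)) := by
    intro p q _ s
    revert p q s
    cases i <;> decide
  unfold lk lk' bb addB
  simp only
  by_cases h1 : v = v1
  · subst h1
    simp only [true_and, hd1, hd2, false_and, or_false]
    exact decide_eq_decide.2 (e _ _ false _)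
  · by_cases h2 : v = v2
    · subst h2
      simp only [true_and, h1, hd3, false_and, or_false, false_or]
      exact decide_eq_decide.2 (e _ _ false _)
    · by_cases h3 : v = v3
      · subst h3
        simp only [true_and, h1, h2, false_and, false_or]
        exact decide_eq_decide.2 (e _ _ false _)
      · simp [h1, h2, h3]

theorem inn_step (c : ℕ) (k k' : ℕ) (b : B3) (hb : b ≠ (false, false, false)) (x x' : B3)
    (i j : Bool) : inn ((c, k), (addB b x, xor i (proj b x))) ((c, k'), (x', j)) =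
      inn ((c, k'), (addB b x', xor j (proj b x'))) ((c, k), (x, i)) := by
  unfold inn
  simp only [true_and]
  rw [decide_eq_decide]
  have h1 : addB b x = x' ↔ addB b x' = x := by
    constructor
    · rintro rfl; exact addB_addB b x
    · rintro rfl; exact addB_addB b x'
  rw [h1]
  constructor
  · rintro ⟨h2, h3⟩
    refine ⟨h2, ?_⟩
    have h4 : proj b x = !(proj b x') := by rw [← h2]; exact proj_addB b x' hb
    rcases h3 with ⟨h3, h5⟩ | ⟨h3, h5⟩
    · right
      refine ⟨h3, ?_⟩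
      rw [← h5, h4]
      cases i <;> cases proj b x' <;> simp
    · left
      refine ⟨h3, ?_⟩
      rw [h4] at h5
      revert h5
      cases i <;> cases proj b x' <;> cases j <;> simp
  · rintro ⟨h2, h3⟩
    refine ⟨h2, ?_⟩
    have h4 : proj b x = !(proj b x') := by rw [← h2]; exact proj_addB b x' hb
    rcases h3 with ⟨h3, h5⟩ | ⟨h3, h5⟩
    · right
      refine ⟨h3, ?_⟩
      rw [← h5, h4]
      cases j <;> cases proj b x' <;> simp
    · left
      refine ⟨h3, ?_⟩
      rw [h4]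
      revert h5
      cases i <;> cases proj b x' <;> cases j <;> simp

theorem complete_key {φ : Fm} (hd : Distinct3 φ) (h : SAT3 φ) :
    ∃ σ : Equiv.Perm (I φ.length), Sym (mat φ) σ := by
  obtain ⟨τ, hτ⟩ := h
  have hbb : ∀ C ∈ φ, bb τ C ≠ (false, false, false) := by
    intro C hC hcon
    have h1 := hτ C hC
    unfold bb at hcon
    simp only [Prod.mk.injEq] at hcon
    obtain ⟨e1, e2, e3⟩ := hcon
    rcases h1 with h1 | h1 | h1
    · rw [h1] at e1; simp at e1
    · rw [h1] at e2; simp at e2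
    · rw [h1] at e3; simp at e3
  have hget : ∀ c : Fin φ.length, φ.getD c.val dflt ∈ φ := by
    intro c
    rw [List.getD_eq_getElem?_getD, List.getElem?_eq_getElem c.2]
    exact List.getElem_mem _
  refine ⟨Equiv.sumCongr (permJ φ τ) (Equiv.refl _), ?_⟩
  have hJ : ∀ a b : J φ.length, E0 φ (labJ (stepJ φ τ a)) (labJ b) =
      E0 φ (labJ (stepJ φ τ b)) (labJ a) := by
    rintro (⟨v, i⟩ | ⟨⟨c, k⟩, x, i⟩) (⟨v', i'⟩ | ⟨⟨c', k'⟩, x', i'⟩)
    · rfl
    · exact lk_step τ _ x' v.val i (hd _ (hget c'))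
    · exact (lk_step τ _ x v'.val i' (hd _ (hget c))).symm
    · change inn ((c.val, k.val), (addB (bb τ (φ.getD c.val dflt)) x,
          xor i (proj (bb τ (φ.getD c.val dflt)) x))) ((c'.val, k'.val), (x', i')) =
        inn ((c'.val, k'.val), (addB (bb τ (φ.getD c'.val dflt)) x',
          xor i' (proj (bb τ (φ.getD c'.val dflt)) x'))) ((c.val, k.val), (x, i))
      by_cases hcc : c = c'
      · subst hcc
        exact inn_step _ _ _ _ (hbb _ (hget c)) _ _ _ _
      · have h1 : c.val ≠ c'.val := fun h => hcc (Fin.ext h)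
        simp [inn, h1, Ne.symm h1]
  rintro (a | s) (b | t)
  · exact hJ a b
  · change decide (t.val < (TT φ.length + 1) * cl φ.length (labJ (stepJ φ τ a))) =
      decide (t.val < (TT φ.length + 1) * cl φ.length (labJ a))
    rw [cl_step]
  · change decide (s.val < (TT φ.length + 1) * cl φ.length (labJ b)) =
      decide (s.val < (TT φ.length + 1) * cl φ.length (labJ (stepJ φ τ b)))
    rw [cl_step]
  · rfl

end Pool.Agent.K6.H49.MS
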